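import Pool.Agent.H158_IT.SockC

/-!
# Finite support iterations and the countable chain conditions in models of ZF

The definitions used in the statement are in `Pool.Agent.H158_IT.Defs` and in the files named
there.
-/

set_option autoImplicit false

namespace Pool.Agent.Results.MP_021b2d_lc.IterationTheorems

open Pool.Agent.W868 (IsZF)
open Pool.Agent.H158_IT (IT CCC1 CCC2 CCC3 DC)

/-- Every countable transitive model `M` of ZF can be extended to a countable transitive model `N`
of ZF with the same ordinals in which the iteration theorems for all three chain conditions fail,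
and there is a countable transitive model of ZF. In every countable transitive model of ZF + DC,
the iteration theorem for the third chain condition holds. -/
theorem result :
    (∀ M : Set ZFSet.{0}, M.Countable → IsZF M →
      ∃ N : Set ZFSet.{0}, M ⊆ N ∧ N.Countable ∧ IsZF N ∧
        (∀ x : ZFSet.{0}, x.IsOrdinal → (x ∈ N ↔ x ∈ M)) ∧
        ¬ IT CCC1 N ∧ ¬ IT CCC2 N ∧ ¬ IT CCC3 N) ∧
    (∃ M : Set ZFSet.{0}, M.Countable ∧ IsZF M) ∧
    ∀ N : Set ZFSet.{0}, N.Countable → IsZF N → DC N → IT CCC3 N := by
  refine ⟨fun M hc hM => Pool.Agent.H158_HM.Sock.main hM hc, ?_,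
    fun N hc hN hDC => Pool.Agent.H158_IT.it_ccc3 hc hN hDC⟩
  obtain ⟨M, hc, hM⟩ := Pool.Agent.H158_HM.Ram.exists_ctm
  exact ⟨M, hc, hM.toIsZF⟩

end Pool.Agent.Results.MP_021b2d_lc.IterationTheorems
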